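import Pool.Agent.H.MP_2b3d4e_al.Main

set_option autoImplicit false

namespace Pool.Agent.H.MP_a5f8b0_al

open Equiv Pool.Agent.H.MP_2b3d4e_al

def Sm (Q : Set ℕ) (M : ℤ) : Prop := 0 < M ∧ ∀ q : ℕ, q.Prime → (q : ℤ) ∣ M → q ∈ Q

variable {Q : Set ℕ}

lemma Sm.mul {M N : ℤ} (h : Sm Q M) (h' : Sm Q N) : Sm Q (M * N) :=
  ⟨mul_pos h.1 h'.1, fun q hq d => ((Nat.prime_iff_prime_int.1 hq).dvd_or_dvd d).elim
    (h.2 q hq) (h'.2 q hq)⟩

lemma sm_one : Sm Q 1 := ⟨one_pos, fun _ hq d => absurd (isUnit_of_dvd_one d)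
  (Nat.prime_iff_prime_int.1 hq).not_unit⟩

lemma Sm.pow {M : ℤ} (h : Sm Q M) (n : ℕ) : Sm Q (M ^ n) := by
  induction n with
  | zero => simpa using sm_one
  | succ n ih => rw [pow_succ]; exact ih.mul h

lemma sm_prime {p : ℕ} (hp : p.Prime) (h : p ∈ Q) : Sm Q p :=
  ⟨by exact_mod_cast hp.pos, fun q hq d => by
    rwa [(Nat.prime_dvd_prime_iff_eq hq hp).1 (Int.natCast_dvd_natCast.1 d)]⟩

lemma sm_fin {ι : Type} (s : Finset ι) (P : ι → ℤ → Prop) (hm : ∀ i N c, P i N → P i (N * c))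
    (h : ∀ i ∈ s, ∃ N, Sm Q N ∧ P i N) : ∃ N, Sm Q N ∧ ∀ i ∈ s, P i N := by
  classical
  induction s using Finset.induction_on with
  | empty => exact ⟨1, sm_one, by simp⟩
  | insert a s _ ih =>
    obtain ⟨N, a1, a2⟩ := h a (by simp)
    obtain ⟨M, b1, b2⟩ := ih fun i hi => h i (by simp [hi])
    refine ⟨N * M, a1.mul b1, fun i hi => ?_⟩
    rcases Finset.mem_insert.1 hi with rfl | hi
    · exact hm _ _ _ a2
    · rw [mul_comm]; exact hm _ _ _ (b2 i hi)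

lemma pow_ndvd {q : ℕ} (hq : 1 < q) {z : ℤ} (hz : z ≠ 0) : ¬ (q : ℤ) ^ z.natAbs ∣ z := fun h => by
  have := Int.natAbs_le_of_dvd_ne_zero h hz
  rw [Int.natAbs_pow, Int.natAbs_natCast] at this
  exact (Nat.lt_pow_self hq).not_ge this

def IsT (Q : Set ℕ) (σ : Perm ℤ) : Prop := ∃ r m s n : ℤ, Sm Q m ∧ Sm Q n ∧ 0 ≤ r ∧ r < m ∧ 0 ≤ s ∧
  s < n ∧ (∀ k l, r + m * k ≠ s + n * l) ∧ IsSw (fun k => r + m * k) (fun k => s + n * k) σ

structure CTG (Q : Set ℕ) (G : Subgroup (Perm ℤ)) : Prop where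
  two : 2 ∈ Q
  aff : ∀ g ∈ G, ∃ N, Sm Q N ∧ ∀ x, ∃ m, Sm Q m ∧ ∀ k, g (x + N * k) = g x + m * k
  pos : ∀ g ∈ G, ∀ n, 0 ≤ g n ↔ 0 ≤ n
  sw : ∀ σ, IsT Q σ → σ ∈ G

lemma sw_sq {a b : ℤ → ℤ} {σ : Perm ℤ} (h : IsSw a b σ) : σ * σ = 1 := by
  ext n
  by_cases h1 : ∃ k, n = a k
  · obtain ⟨k, rfl⟩ := h1; simp [h.1]
  by_cases h2 : ∃ k, n = b k
  · obtain ⟨k, rfl⟩ := h2; simp [h.1]
  push Not at h1 h2
  simp [h.2 n h1 h2]

lemma ctg (h2 : 2 ∈ Q) : CTG Q (Subgroup.closure {σ | IsT Q σ}) := by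
  have key : ∀ g ∈ Subgroup.closure {σ | IsT Q σ},
      (∃ N, Sm Q N ∧ ∀ x, ∃ m, Sm Q m ∧ ∀ k, g (x + N * k) = g x + m * k) ∧ ∀ n, 0 ≤ g n ↔ 0 ≤ n := by
    have gen : ∀ g : Perm ℤ, IsT Q g →
        (∃ N, Sm Q N ∧ ∀ x, ∃ m, Sm Q m ∧ ∀ k, g (x + N * k) = g x + m * k) ∧
          ∀ n, 0 ≤ g n ↔ 0 ≤ n := by
      rintro σ ⟨r, m, s, n, a, b, r0, r1, s0, s1, -, h, h'⟩
      refine ⟨⟨m * n, a.mul b, fun x => ?_⟩, fun x => ?_⟩ <;> by_cases h1 : ∃ k, x = r + m * k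
      · obtain ⟨j, rfl⟩ := h1
        exact ⟨n * n, b.mul b, fun k => by
          rw [show r + m * j + m * n * k = r + m * (j + n * k) by ring, (h _).1, (h _).1]; ring⟩
      · by_cases h2 : ∃ k, x = s + n * k
        · obtain ⟨j, rfl⟩ := h2
          exact ⟨m * m, a.mul a, fun k => by
            rw [show s + n * j + m * n * k = s + n * (j + m * k) by ring, (h _).2, (h _).2]; ring⟩
        · push Not at h1 h2
          exact ⟨m * n, a.mul b, fun k => by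
            rw [h' x h1 h2, h' _ (fun j e => h1 (j - n * k) (by linear_combination e))
              fun j e => h2 (j - m * k) (by linear_combination e)]⟩
      · obtain ⟨j, rfl⟩ := h1
        rw [(h _).1, (good_cls r0 r1).nonneg, (good_cls s0 s1).nonneg]
      · by_cases h2 : ∃ k, x = s + n * k
        · obtain ⟨j, rfl⟩ := h2
          rw [(h _).2, (good_cls r0 r1).nonneg, (good_cls s0 s1).nonneg]
        · push Not at h1 h2
          rw [h' x h1 h2]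
    intro g hg
    induction hg using Subgroup.closure_induction'' with
    | one => exact ⟨⟨1, sm_one, fun x => ⟨1, sm_one, by simp⟩⟩, by simp⟩
    | inv_mem σ h =>
      obtain ⟨r, m, s, n, a⟩ := id h
      rw [inv_eq_of_mul_eq_one_left (sw_sq a.2.2.2.2.2.2.2)]; exact gen σ h
    | mem σ h => exact gen σ h
    | mul g h _ _ a b =>
      obtain ⟨⟨N, n1, n2⟩, a⟩ := a
      obtain ⟨⟨M, m1, m2⟩, b⟩ := b
      refine ⟨⟨M * N, m1.mul n1, fun x => ?_⟩, fun n => by rw [Perm.mul_apply, a, b]⟩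
      obtain ⟨m, c1, c2⟩ := m2 x
      obtain ⟨m', d1, d2⟩ := n2 (h x)
      exact ⟨m' * m, d1.mul c1, fun k => by
        rw [Perm.mul_apply, mul_assoc, c2, mul_left_comm, d2, Perm.mul_apply, mul_assoc]⟩
  exact ⟨h2, fun g hg => (key g hg).1, fun g hg => (key g hg).2,
    fun σ h => Subgroup.subset_closure h⟩

def Near (Q : Set ℕ) (x : ℤ) (P : ℤ → Prop) : Prop := ∃ N, Sm Q N ∧ ∀ k, P (x + N * k)

lemma Near.self {x : ℤ} {P : ℤ → Prop} (h : Near Q x P) : P x := by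
  obtain ⟨N, -, h⟩ := h; simpa using h 0

lemma Near.mono {x : ℤ} {P P' : ℤ → Prop} (h : Near Q x P) (h' : ∀ z, P z → P' z) : Near Q x P' := by
  obtain ⟨N, a, h⟩ := h; exact ⟨N, a, fun k => h' _ (h k)⟩

lemma Near.and {x : ℤ} {P P' : ℤ → Prop} (h : Near Q x P) (h' : Near Q x P') :
    Near Q x fun z => P z ∧ P' z := by
  obtain ⟨N, a, h⟩ := h
  obtain ⟨M, b, h'⟩ := h'
  exact ⟨N * M, a.mul b, fun k => ⟨by rw [mul_assoc]; exact h _,
    by rw [mul_comm N, mul_assoc]; exact h' _⟩⟩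

variable {G : Subgroup (Perm ℤ)} (hG : CTG Q G)
include hG

lemma sm_two : Sm Q 2 := sm_prime Nat.prime_two hG.two

lemma near_ne {x y : ℤ} (h : x ≠ y) : Near Q x (· ≠ y) :=
  ⟨_, (sm_two hG).pow (y - x).natAbs, fun k e => pow_ndvd (q := 2) one_lt_two (sub_ne_zero.2 h.symm)
    ⟨k, by push_cast; linear_combination -e⟩⟩

lemma near_comp {x : ℤ} {P : ℤ → Prop} (g : G) (h : Near Q (g.1 x) P) : Near Q x fun z => P (g.1 z) := by
  obtain ⟨N, a, h⟩ := h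
  obtain ⟨M, b, c⟩ := hG.aff g g.2
  obtain ⟨m, -, c⟩ := c x
  exact ⟨M * N, b.mul a, fun k => by simp only [mul_assoc, c]; rw [mul_left_comm]; exact h _⟩

lemma ex_sw {x N y M : ℤ} (a : Sm Q N) (b : Sm Q M) (hd : ∀ k l, x + N * k ≠ y + M * l)
    (hs : ∀ k, 0 ≤ x + N * k ↔ 0 ≤ y + M * k) :
    ∃ σ : G, IsSw (fun k => x + N * k) (fun k => y + M * k) σ.1 := by
  obtain ⟨σ, h⟩ := exists_sw (a := fun k => x + N * k) (b := fun k => y + M * k)
    (fun k l e => by simpa [a.1.ne'] using e) (fun k l e => by simpa [b.1.ne'] using e) hd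
  obtain ⟨r, q, r0, r1, rfl⟩ := decomp x a.1
  refine ⟨⟨σ, hG.sw σ ⟨r, N, y - M * q, M, a, b, r0, r1, ?_, ?_, fun k l e => hd (k - q) (l - q)
    (by linear_combination e), fun k => ?_, fun n h1 h2 => h.2 n (fun k e => h1 (k + q) ?_)
      fun k e => h2 (k + q) ?_⟩⟩, h⟩
  · have := (hs (-q)).1 (by linarith); linarith
  · have := (hs (-q - 1)).not.1 (by linarith); linarith
  · have := h.1 (k - q)
    simp only [show r + N * q + N * (k - q) = r + N * k by ring,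
      show y + M * (k - q) = y - M * q + M * k by ring] at this
    exact this
  · simp only at e ⊢; linear_combination e
  · simp only at e ⊢; linear_combination e

omit hG in
lemma sw_supp {a b : ℤ → ℤ} {σ : Perm ℤ} (h : IsSw a b σ) (hd : ∀ k l, a k ≠ b l) (z : ℤ) :
    σ z ≠ z ↔ (∃ k, z = a k) ∨ ∃ k, z = b k := by
  refine ⟨fun hz => ?_, ?_⟩
  · by_contra hc
    push Not at hc
    exact hz (h.2 z hc.1 hc.2)
  · rintro (⟨k, rfl⟩ | ⟨k, rfl⟩)
    · rw [(h.1 k).1]; exact (hd k k).symm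
    · rw [(h.1 k).2]; exact hd k k

lemma ex_can {N c : ℤ} (x i j : ℤ) (a : Sm Q N) (b : Sm Q c) (i0 : 0 ≤ i) (i1 : i < c) (j0 : 0 ≤ j)
    (j1 : j < c) (hij : i ≠ j) : ∃ σ : G, σ * σ = 1 ∧
      (∀ k, σ.1 (x % N + N * (i + c * k)) = x % N + N * (j + c * k) ∧
        σ.1 (x % N + N * (j + c * k)) = x % N + N * (i + c * k)) ∧
      ∀ z, σ.1 z ≠ z ↔ ∃ k, z = x % N + N * (i + c * k) ∨ z = x % N + N * (j + c * k) := by
  have g := good_cls (Int.emod_nonneg x a.1.ne') (Int.emod_lt_of_pos x a.1)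
  have e : ∀ i k, x % N + N * i + N * c * k = x % N + N * (i + c * k) := fun i k => by ring
  have hd : ∀ k l, x % N + N * i + N * c * k ≠ x % N + N * j + N * c * l := fun k l h => by
    rw [e, e] at h
    exact hij (decomp_unique i0 i1 j0 j1 (g.inj h)).1
  obtain ⟨σ, h⟩ := ex_sw hG (a.mul b) (a.mul b) hd fun k => by
    rw [e, e, g.nonneg, g.nonneg, (good_cls i0 i1).nonneg, (good_cls j0 j1).nonneg]
  refine ⟨σ, Subtype.ext (sw_sq h), by simpa only [e] using h.1, fun z => ?_⟩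
  rw [sw_supp h hd]; simp only [e, exists_or]

lemma exT (x : ℤ) {N : ℤ} (a : Sm Q N) : ∃ τ : G, τ * τ = 1 ∧ ∀ z, τ.1 z ≠ z ↔ N ∣ z - x := by
  obtain ⟨τ, h1, -, h2⟩ := ex_can hG x 0 1 a (sm_two hG) le_rfl (by omega) (by omega) (by omega)
    (by omega)
  refine ⟨τ, h1, fun z => (h2 z).trans ⟨?_, ?_⟩⟩
  · rintro ⟨k, rfl | rfl⟩
    · exact ⟨2 * k - x / N, by rw [Int.emod_def]; ring⟩
    · exact ⟨1 + 2 * k - x / N, by rw [Int.emod_def]; ring⟩
  · rintro ⟨k, hk⟩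
    obtain ⟨j, hj⟩ := Int.even_or_odd' (k + x / N)
    refine ⟨j, hj.imp (fun h => ?_) fun h => ?_⟩ <;> rw [Int.emod_def] <;>
      linear_combination hk + N * h

lemma exC (x : ℤ) {N : ℤ} (a : Sm Q N) :
    ∃ c : G, (∀ z, ¬ N ∣ z - x → c.1 z = z) ∧ ∃ z, c.1 (c.1 z) ≠ z := by
  have f : Sm Q 4 := (sm_two hG).mul (sm_two hG)
  obtain ⟨σ, -, h1, h2⟩ := ex_can hG x 0 1 a f le_rfl (by omega) (by omega) (by omega) (by omega)
  obtain ⟨τ, -, g1, g2⟩ := ex_can hG x 1 2 a f (by omega) (by omega) (by omega) (by omega) (by omega)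
  have k : ∀ t, N ∣ x % N + N * t - x := fun t => ⟨t - x / N, by rw [Int.emod_def]; ring⟩
  refine ⟨σ * τ, fun z hz => ?_, x % N + N * (0 + 4 * 0), ?_⟩
  · have a1 : τ.1 z = z := not_not.1 fun e => by
      obtain ⟨j, rfl | rfl⟩ := (g2 z).1 e <;> exact hz (k _)
    have a2 : σ.1 z = z := not_not.1 fun e => by
      obtain ⟨j, rfl | rfl⟩ := (h2 z).1 e <;> exact hz (k _)
    simp [a1, a2]
  · have a1 : τ.1 (x % N + N * (0 + 4 * 0)) = x % N + N * (0 + 4 * 0) := not_not.1 fun e => by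
      obtain ⟨j, h | h⟩ := (g2 _).1 e <;> simp [a.1.ne'] at h <;> omega
    have a2 : σ.1 (x % N + N * (2 + 4 * 0)) = x % N + N * (2 + 4 * 0) := not_not.1 fun e => by
      obtain ⟨j, h | h⟩ := (h2 _).1 e <;> simp [a.1.ne'] at h <;> omega
    rw [Subgroup.coe_mul, Perm.mul_apply, Perm.mul_apply, a1, (h1 0).1, (g1 0).1, a2]
    simp [a.1.ne']

lemma inv_per (τ : G) (h : τ * τ = 1) :
    ∃ N, Sm Q N ∧ ∀ x k, τ.1 (x + N * k) = x + N * k ↔ τ.1 x = x := by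
  obtain ⟨N, a, b⟩ := hG.aff τ τ.2
  have ss : ∀ z, τ.1 (τ.1 z) = z := fun z => Equiv.congr_fun (congrArg Subtype.val h) z
  have key : ∀ x k, τ.1 x = x → τ.1 (x + N * k) = x + N * k := fun x k e => by
    obtain ⟨m, m1, m2⟩ := b x
    have := ss (x + N * N)
    rw [m2, e, mul_comm m, m2, e] at this
    rw [m2, e, (pow_left_inj₀ m1.1.le a.1.le two_ne_zero).1 (by linear_combination this)]
  exact ⟨N, a, fun x k => ⟨fun e => by simpa using key _ (-k) e, key x k⟩⟩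

lemma near_fix (τ : G) (h : τ * τ = 1) (x : ℤ) : Near Q x fun z => τ.1 z = z ↔ τ.1 x = x := by
  obtain ⟨N, a, b⟩ := inv_per hG τ h
  exact ⟨N, a, b x⟩

omit hG in
lemma comm_of {a b : Perm ℤ} (h : ∀ z, a z = z ∨ b z = z) : a * b = b * a := Perm.Disjoint.commute h

omit hG in
lemma supp_inv {a b : Perm ℤ} (h : a * b = b * a) (z : ℤ) : b (a z) = a z ↔ b z = z := by
  rw [← Perm.mul_apply, ← h, Perm.mul_apply, a.apply_eq_iff_eq]

omit hG in
def Wt {Γ : Type} [Group Γ] (τ b : Γ) : Prop := ∀ a : Γ, (∀ σ : Γ, σ * τ = τ * σ → σ * σ = 1 →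
  (∀ c : Γ, c * τ = τ * c → σ * (c * σ * c⁻¹) = c * σ * c⁻¹ * σ) → a * σ = σ * a) →
    b * (a * a) = a * a * b

omit hG in
lemma Wt.map {Γ Γ' : Type} [Group Γ] [Group Γ'] (α : Γ ≃* Γ') (τ b : Γ) :
    Wt (α τ) (α b) ↔ Wt τ b := by
  simp only [Wt, α.surjective.forall, ← map_mul, ← map_inv, α.injective.eq_iff, α.map_eq_one_iff]

lemma sep {x y : ℤ} {P : ℤ → Prop} (g : G) (hg : g.1 x ≠ x) (h : Near Q x P) :
    ∃ N, Sm Q N ∧ (∀ z, N ∣ z - x → P z ∧ ¬ N ∣ g.1 z - x) := by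
  obtain ⟨M, a, b⟩ := near_ne hG hg
  obtain ⟨N, c, d⟩ := h.and (near_comp hG g (P := fun z => M ∣ z - g.1 x) ⟨M, a, by simp⟩)
  refine ⟨N * M, c.mul a, fun z ⟨k, hk⟩ => ?_⟩
  have := d (M * k)
  rw [show x + N * (M * k) = z by linear_combination -hk] at this
  refine ⟨this.1, fun ⟨l, hl⟩ => ?_⟩
  obtain ⟨j, hj⟩ := this.2
  exact b (j - N * l) (by linear_combination hl - hj)

theorem matui (τ b : G) (h : τ * τ = 1) : Wt τ b ↔ ∀ z, τ.1 z = z → b.1 z = z := by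
  have ss : ∀ z, τ.1 (τ.1 z) = z := fun z => Equiv.congr_fun (congrArg Subtype.val h) z
  have small : ∀ (g : G) x, τ.1 x = x → g.1 x ≠ x → ∃ c : G, (∀ z, c.1 z = z ∨ τ.1 z = z) ∧
      ∃ z, c.1 (c.1 z) ≠ z ∧ c.1 (g.1 z) = g.1 z ∧ c.1 (g.1 (c⁻¹.1 z)) = g.1 (c⁻¹.1 z) := by
    intro g x h1 h2
    obtain ⟨N, n1, n2⟩ := sep hG (y := 0) g h2 (near_fix hG τ h x)
    obtain ⟨c, c1, z, c2⟩ := exC hG x n1
    have hz : N ∣ z - x := by_contra fun e => c2 (by rw [c1 z e, c1 z e])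
    have hz' : N ∣ c⁻¹.1 z - x := by_contra fun e => by
      have := c1 _ e
      rw [show c.1 (c⁻¹.1 z) = z by simp] at this
      exact e (this ▸ hz)
    exact ⟨c, fun w => (em (N ∣ w - x)).elim (fun e => Or.inr ((n2 w e).1.2 h1))
      fun e => Or.inl (c1 w e), z, c2, c1 _ (n2 _ hz).2, c1 _ (n2 _ hz').2⟩
  have s1 : ∀ σ : G, σ * σ = 1 → (∀ c : G, c * τ = τ * c → σ * (c * σ * c⁻¹) = c * σ * c⁻¹ * σ) →
      ∀ x, τ.1 x = x → σ.1 x = x := by
    intro σ h1 h2 x hx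
    by_contra hc
    obtain ⟨c, c1, z, c2, c3, c4⟩ := small σ x hx hc
    have s2 : ∀ z, σ.1 (σ.1 z) = z := fun z => Equiv.congr_fun (congrArg Subtype.val h1) z
    have := Equiv.congr_fun (congrArg Subtype.val (h2 c (Subtype.ext (comm_of c1)))) z
    simp only [Subgroup.coe_mul, Perm.mul_apply] at this
    rw [c4, s2, show c⁻¹.1 (σ.1 z) = σ.1 z by
      rw [Subgroup.coe_inv, Perm.inv_eq_iff_eq, c3], s2] at this
    exact c2 (by rw [← this]; simp)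
  refine ⟨fun hb x hx => ?_, fun hb a ha => Subtype.ext (comm_of fun x => ?_)⟩
  · by_contra hc
    obtain ⟨c, c1, z, c2, c3, -⟩ := small b x hx hc
    have := hb c fun σ _ h1 h2 => Subtype.ext (comm_of fun z => (c1 z).imp id (s1 σ h1 h2 z))
    have := (supp_inv (b := c.1 * c.1) (congrArg Subtype.val this) z).1 (by simp [c3])
    exact c2 this
  · refine (em (τ.1 x = x)).imp (hb x) fun hx => ?_
    have key : ∀ x, τ.1 x ≠ x → a.1 x = x ∨ a.1 x = τ.1 x := by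
      intro x hx
      by_contra hc
      rw [not_or] at hc
      obtain ⟨M, m1, m2⟩ := near_ne hG (Ne.symm hc.1)
      obtain ⟨M', m1', m2'⟩ := near_ne hG (Ne.symm hc.2)
      obtain ⟨L, l1, l2⟩ := hG.aff τ τ.2
      obtain ⟨m, l3, l4⟩ := l2 x
      obtain ⟨N, n1, n2⟩ := sep hG (y := 0) τ hx (P := fun _ => True) ⟨1, sm_one, by simp⟩
      have hd : ∀ k l, x + L * (N * M * M') * k ≠ τ.1 x + m * (N * M * M') * l := fun k l e =>
        (n2 (x + L * (N * M * M' * l)) ⟨L * M * M' * l, by ring⟩).2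
          ⟨L * M * M' * k, by rw [l4]; linear_combination -e⟩
      have e : ∀ k, τ.1 (x + L * (N * M * M') * k) = τ.1 x + m * (N * M * M') * k := fun k => by
        rw [mul_assoc L, l4, mul_assoc m]
      obtain ⟨σ, hσ⟩ := ex_sw hG (l1.mul ((n1.mul m1).mul m1')) (l3.mul ((n1.mul m1).mul m1')) hd
        fun k => by rw [← e, hG.pos τ τ.2]
      have r1 : ∀ z, σ.1 z = z ∨ σ.1 z = τ.1 z := fun z => (em (σ.1 z = z)).imp id fun hz => by
        rcases (sw_supp hσ hd z).1 hz with ⟨k, rfl⟩ | ⟨k, rfl⟩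
        · rw [(hσ.1 k).1, e]
        · rw [(hσ.1 k).2, ← e, ss]
      have r2 : ∀ u : Perm ℤ, u * u = 1 → (∀ z, u z = z ∨ u z = τ.1 z) → ∀ z, u (τ.1 z) = τ.1 (u z) := by
        intro u hu h z
        have uu : ∀ z, u (u z) = z := fun z => Equiv.congr_fun hu z
        rcases h z with h1 | h1
        · rcases h (τ.1 z) with h2 | h2
          · rw [h1, h2]
          · rw [ss] at h2; rw [h1, h2, u.injective (h2.trans h1.symm)]
        · rw [← h1, uu, h1, ss]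
      have := ha σ (Subtype.ext (Equiv.ext (r2 _ (sw_sq hσ) r1))) (Subtype.ext (sw_sq hσ)) fun c hc => by
        have c1 : ∀ z, c.1 (τ.1 z) = τ.1 (c.1 z) := fun z => Equiv.congr_fun (congrArg Subtype.val hc) z
        have r3 : ∀ z, (c * σ * c⁻¹).1 z = z ∨ (c * σ * c⁻¹).1 z = τ.1 z := fun z =>
          (r1 (c⁻¹.1 z)).imp (fun e => by simp at e; simp [e]) fun e => by simp at e; simp [e, c1]
        have r4 := r2 _ (sw_sq hσ) r1
        have r5 := r2 (c * σ * c⁻¹).1 (by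
          rw [← Subgroup.coe_mul, show c * σ * c⁻¹ * (c * σ * c⁻¹) = c * (σ * σ) * c⁻¹ by group,
            show σ * σ = 1 from Subtype.ext (sw_sq hσ)]; simp) r3
        refine Subtype.ext (Equiv.ext fun z => ?_)
        rw [Subgroup.coe_mul, Subgroup.coe_mul _ _ σ, Perm.mul_apply, Perm.mul_apply]
        rcases r1 z with e1 | e1 <;> rcases r3 z with e2 | e2 <;> simp only [e1, e2, r4, r5]
      have hx' : σ.1 x ≠ x := (sw_supp hσ hd x).2 (Or.inl ⟨0, by simp⟩)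
      rcases (sw_supp hσ hd _).1 ((supp_inv (congrArg Subtype.val this) x).not.2 hx') with
        ⟨k, e⟩ | ⟨k, e⟩
      · exact m2 (L * N * M' * k) (by rw [e]; ring)
      · exact m2' (m * N * M * k) (by rw [e]; ring)
    rw [Subgroup.coe_mul, Perm.mul_apply]
    rcases key x hx with e | e
    · rw [e, e]
    · rcases key (τ.1 x) (by rw [ss]; exact Ne.symm hx) with e' | e'
      · exact absurd (a.1.injective (e'.trans e.symm)) hx
      · rw [e, e', ss]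

end Pool.Agent.H.MP_a5f8b0_al
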