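import Pool.Agent.H.MP_a5f8b0_al.Rig

set_option autoImplicit false

namespace Pool.Agent.H.MP_a5f8b0_al

open Equiv Pool.Agent.H.MP_2b3d4e_al

variable {Q Q' : Set ℕ} {G G' : Subgroup (Perm ℤ)}

theorem sub_of_iso (hG : CTG Q G) (hG' : CTG Q' G') (α : G ≃* G') {p : ℕ} (hp : p.Prime)
    (h2 : p ≠ 2) (hQ : p ∈ Q) : p ∈ Q' := by
  obtain ⟨P, p1, p2⟩ := rig hG hG' α hp h2 hQ
  obtain ⟨ξ, b, b1, b2⟩ := p2 0
  obtain ⟨M, m1, m2⟩ := Val.cont hG hG' α 0 (p1.mul (sm_prime hp hQ))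
  have h : (M : ℚ) ≠ 0 := by exact_mod_cast m1.1.ne'
  have := m2 _ _ _ (by simpa using b2 0) (b2 M) (by
    rw [show (ξ - (ξ + b * M)) / M = -b by field_simp; ring]; exact (RR Q').neg_mem b1)
  rw [zero_add, sub_zero] at this
  exact m1.2 p hp ((mul_dvd_mul_iff_left p1.1.ne').1 this)

lemma gen_eq (P : Set ℕ) : {σ : Equiv.Perm ℤ | ∃ m1 m2 r1 r2 : ℤ,
    0 < m1 ∧ 0 < m2 ∧ 0 ≤ r1 ∧ r1 < m1 ∧ 0 ≤ r2 ∧ r2 < m2 ∧
    ¬ ((Int.gcd m1 m2 : ℤ) ∣ (r1 - r2)) ∧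
    (∀ p : ℕ, Nat.Prime p → (p : ℤ) ∣ m1 * m2 → p = 2 ∨ p ∈ P) ∧
    ∀ n : ℤ, σ n =
      (if m1 ∣ n - r1 then r2 + (n - r1) / m1 * m2
       else if m2 ∣ n - r2 then r1 + (n - r2) / m2 * m1
       else n)} = {σ | IsT (insert 2 P) σ} := by
  ext σ
  constructor
  · rintro ⟨m, n, r, s, m0, n0, r0, r1, s0, s1, hd, hp, h⟩
    have hd' : ∀ k l, r + m * k ≠ s + n * l := fun k l e => hd (by
      rw [show r - s = n * l - m * k by linear_combination e]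
      exact dvd_sub ((Int.gcd_dvd_right ..).mul_right _) ((Int.gcd_dvd_left ..).mul_right _))
    refine ⟨r, m, s, n, ⟨m0, fun q hq d => hp q hq (d.mul_right _)⟩,
      ⟨n0, fun q hq d => hp q hq (d.mul_left _)⟩, r0, r1, s0, s1, hd', fun k => ⟨?_, ?_⟩,
      fun z h1 h2 => ?_⟩
    · simp [h, m0.ne', mul_comm k]
    · rw [h, if_neg fun ⟨l, e⟩ => hd' l k (by linear_combination -e)]
      simp [n0.ne', mul_comm k]
    · rw [h, if_neg fun ⟨l, e⟩ => h1 l (by simp only; linear_combination e),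
        if_neg fun ⟨l, e⟩ => h2 l (by simp only; linear_combination e)]
  · rintro ⟨r, m, s, n, a, b, r0, r1, s0, s1, hd, h, h'⟩
    refine ⟨m, n, r, s, a.1, b.1, r0, r1, s0, s1, fun ⟨c, e⟩ => hd (-(Int.gcdA m n * c))
      (Int.gcdB m n * c) (by rw [Int.gcd_eq_gcd_ab] at e; linear_combination e),
      (a.mul b).2, fun z => ?_⟩
    split_ifs with h1 h2
    · obtain ⟨k, e⟩ := h1
      rw [e, Int.mul_ediv_cancel_left _ a.1.ne', show z = r + m * k by linear_combination e, (h k).1,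
        mul_comm k]
    · obtain ⟨k, e⟩ := h2
      rw [e, Int.mul_ediv_cancel_left _ b.1.ne', show z = s + n * k by linear_combination e, (h k).2,
        mul_comm k]
    · exact h' z (fun k e => h1 ⟨k, by simp only at e; linear_combination e⟩)
        fun k e => h2 ⟨k, by simp only at e; linear_combination e⟩

lemma trans (hG : CTG Q G) {x y : ℤ} (h : 0 ≤ x ↔ 0 ≤ y) : ∃ g : G, g.1 x = y := by
  rcases eq_or_ne x y with rfl | hxy
  · exact ⟨1, rfl⟩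
  obtain ⟨N, n1, n2, n3⟩ : ∃ N, Sm Q N ∧ |x| < N ∧ |y| < N := by
    have : ∀ z : ℤ, z.natAbs ≤ x.natAbs + y.natAbs → |z| < 2 ^ (x.natAbs + y.natAbs) := fun z hz => by
      rw [← Int.natCast_natAbs]
      exact_mod_cast hz.trans_lt Nat.lt_two_pow_self
    exact ⟨_, (sm_two hG).pow (x.natAbs + y.natAbs), this x (by omega), this y (by omega)⟩
  rw [abs_lt] at n2 n3
  have key : ∀ k z, -N < z → z < N → (0 ≤ z + N * k ↔ 0 < k ∨ k = 0 ∧ 0 ≤ z) := fun k z a b => by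
    rcases lt_trichotomy k 0 with c | rfl | c
    · exact iff_of_false (by nlinarith) (by omega)
    · simp
    · exact iff_of_true (by nlinarith) (by omega)
  obtain ⟨σ, hσ, -⟩ := ex_sw hG (x := x) (y := y) n1 n1 (fun k l e => by
    have : l - k = 0 := by
      have h1 : N * (l - k) < N := by
        rw [show N * (l - k) = x - y by linear_combination -e]; omega
      have h2 : -N < N * (l - k) := by
        rw [show N * (l - k) = x - y by linear_combination -e]; omega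
      have := n1.1
      have h3 : l - k < 1 := by nlinarith
      have h4 : -1 < l - k := by nlinarith
      omega
    exact hxy (by linear_combination e + N * this)) fun k => by
      rw [key k x n2.1 n2.2, key k y n3.1 n3.2, h]
  exact ⟨σ, by simpa using (hσ 0).1⟩

lemma Val.symm (hG : CTG Q G) (hG' : CTG Q' G') (α : G ≃* G') {x y : ℤ} (v : Val α Q' x y) :
    Val α.symm Q y x := by
  rintro z N s ⟨σ, a, b, c⟩
  obtain ⟨P, p1, p2⟩ := K9 hG hG' α a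
  obtain ⟨k, e⟩ := (b x).1 ((p2 x y P dvd_rfl (v.fo hG hG' α p1 (by simp))).2 c)
  have h : (N : ℚ) ≠ 0 := by exact_mod_cast s.1.ne'
  have e' : (x : ℚ) - z = N * k := by exact_mod_cast e
  rw [show ((z : ℚ) - x) / N = (-k : ℤ) by push_cast; field_simp; linear_combination -e']
  exact intCast_mem _ _

lemma RR_univ {ξ : ℚ} (h : ξ ∈ RR Set.univ) : ∃ n : ℤ, ξ = n := by
  refine ⟨ξ.num, (Rat.coe_int_num_of_den_eq_one ?_).symm⟩
  by_contra hc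
  obtain ⟨q, hq, d⟩ := Nat.exists_prime_and_dvd hc
  exact h q trivial hq d

theorem conj (hG : CTG Set.univ G) (α : G ≃* G) : ∃ F : Perm ℤ,
    (∃ m : ℤ, 0 < m ∧ ∀ r : ℤ, ∃ a b : ℚ, ∀ n : ℤ, Int.ModEq m n r → (F n : ℚ) = a * n + b) ∧
    (∀ g : G, (α g).1 = F * g.1 * F⁻¹) ∧ ∀ n, 0 ≤ n ↔ (0 ≤ F n ↔ 0 ≤ F 0) := by
  have ex : ∀ (α : G ≃* G) (x : ℤ), ∃ y : ℤ, Val α Set.univ x y := fun α x => by
    obtain ⟨P, -, p⟩ := rig hG hG α Nat.prime_three (by omega) trivial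
    obtain ⟨ξ, b, -, v⟩ := p x
    have v := v 0
    simp only [Int.cast_zero, mul_zero, add_zero] at v
    obtain ⟨y, f⟩ := K3 hG hG α x sm_one
    obtain ⟨n, rfl⟩ := RR_univ (ξ := ξ) (by
      simpa using (RR _).sub_mem (intCast_mem _ y) (v y 1 sm_one f))
    exact ⟨n, v⟩
  choose f hf using ex
  let F : Perm ℤ := ⟨f α, f α.symm,
    fun x => Int.cast_injective ((hf _ _).uniq hG hG _ ((hf α x).symm hG hG α)),
    fun x => Int.cast_injective ((hf _ _).uniq hG hG _ ((hf α.symm x).symm hG hG α.symm))⟩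
  have hF : ∀ x, Val α Set.univ x (F x) := hf α
  have key : ∀ (g : G) x, (α g).1 (F x) = F (g.1 x) := fun g x => by
    obtain ⟨P, -, p⟩ := G1 hG hG α g
    obtain ⟨A, p⟩ := p x
    have p := p 0
    rw [mul_zero, add_zero] at p
    have := (G4 hG hG α (hF x) p).uniq hG hG α (hF _)
    obtain ⟨-, M, m1, m2⟩ := p
    rw [← m2 _ _ dvd_rfl ((hF x).fo hG hG α m1 (by simp))] at this
    exact_mod_cast this
  refine ⟨F, ?_, fun g => Equiv.ext fun z => by simpa using key g (F⁻¹ z), fun n => ⟨fun h => ?_,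
    fun h => ?_⟩⟩
  · obtain ⟨P, p1, p⟩ := rig hG hG α Nat.prime_three (by omega) trivial
    refine ⟨P, p1.1, fun r => ?_⟩
    obtain ⟨ξ, b, -, v⟩ := p r
    have h : (P : ℚ) ≠ 0 := by exact_mod_cast p1.1.ne'
    refine ⟨b / P, ξ - b / P * r, fun n hn => ?_⟩
    obtain ⟨k, rfl⟩ := (modEq_iff _ _ _).1 hn
    rw [(hF _).uniq hG hG α (v k)]; push_cast; field_simp; ring
  · obtain ⟨g, rfl⟩ := trans hG (x := 0) (iff_of_true le_rfl h)
    rw [← key, hG.pos _ (α g).2]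
  · obtain ⟨g, e⟩ := trans hG h.symm
    obtain ⟨g, rfl⟩ := α.surjective g
    rw [key, F.apply_eq_iff_eq] at e
    rw [← e, hG.pos _ g.2]

lemma H_eq : H = Subgroup.closure {σ | IsT Set.univ σ} := by
  refine le_antisymm ((Subgroup.closure_le _).2 fun σ h => Subgroup.subset_closure ?_)
    ((Subgroup.closure_le _).2 ?_)
  · obtain ⟨a, b, ⟨r, m, r0, r1, ha⟩, ⟨s, n, s0, s1, hb⟩, hd, h⟩ := IsCT.sw h
    obtain rfl : a = _ := funext ha
    obtain rfl : b = _ := funext hb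
    exact ⟨r, m, s, n, ⟨by omega, by simp⟩, ⟨by omega, by simp⟩, r0, r1, s0, s1, hd, h⟩
  · rintro σ ⟨r, m, s, n, -, -, r0, r1, s0, s1, hd, h⟩
    exact sw_good (good_cls r0 r1) (good_cls s0 s1) hd h

lemma gen_eq' : {σ : Equiv.Perm ℤ | ∃ r₁ m₁ r₂ m₂ : ℤ,
    0 ≤ r₁ ∧ r₁ < m₁ ∧ 0 ≤ r₂ ∧ r₂ < m₂ ∧
    (¬ ∃ n : ℤ, n % m₁ = r₁ ∧ n % m₂ = r₂) ∧
    (∀ k : ℤ, σ (r₁ + k * m₁) = r₂ + k * m₂ ∧ σ (r₂ + k * m₂) = r₁ + k * m₁) ∧
    (∀ n : ℤ, n % m₁ ≠ r₁ → n % m₂ ≠ r₂ → σ n = n)} = {σ | IsCT σ} := by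
  ext σ
  refine exists₄_congr fun r m s n => and_congr_right fun r0 => and_congr_right fun r1 =>
    and_congr_right fun s0 => and_congr_right fun s1 => ?_
  simp only [Int.ModEq, Int.emod_eq_of_lt r0 r1, Int.emod_eq_of_lt s0 s1, not_exists, mul_comm m,
    mul_comm n, Ne]

lemma mem_H {g : Perm ℤ} : g ∈ H ↔
    (∃ m : ℤ, 0 < m ∧ ∀ r : ℤ, ∃ a b : ℚ, ∀ n : ℤ,
      Int.ModEq m n r → ((g n : ℤ) : ℚ) = a * (n : ℚ) + b) ∧ ∀ n : ℤ, 0 ≤ g n ↔ 0 ≤ n :=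
  ⟨fun h => (pgood_iff g).1 (pgood_of_mem h), fun h => mem_of_pgood ((pgood_iff g).2 h)⟩

theorem out (ν : Perm ℤ) (hν : ∀ n, ν n = -n - 1) :
    (∀ g ∈ H, ν * g * ν⁻¹ ∈ H) ∧
      (∀ φ : H ≃* H, ∃ h ∈ H, (∀ g : H, (φ g).1 = h * g.1 * h⁻¹) ∨
          (∀ g : H, (φ g).1 = h * ν * g.1 * ν⁻¹ * h⁻¹)) ∧
      (¬ ∃ h ∈ H, ∀ g ∈ H, ν * g * ν⁻¹ = h * g * h⁻¹) := by
  have hG : CTG Set.univ H := H_eq ▸ ctg trivial
  have hν' : ∀ n, ν⁻¹ n = -n - 1 := fun n => by rw [Perm.inv_eq_iff_eq, hν]; ring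
  have aff : ∀ g : Perm ℤ, (∃ m : ℤ, 0 < m ∧ ∀ r : ℤ, ∃ a b : ℚ, ∀ n : ℤ,
      Int.ModEq m n r → ((g n : ℤ) : ℚ) = a * (n : ℚ) + b) → ∃ m : ℤ, 0 < m ∧ ∀ r : ℤ, ∃ a b : ℚ,
        ∀ n : ℤ, Int.ModEq m n r → (((g * ν⁻¹) n : ℤ) : ℚ) = a * (n : ℚ) + b := by
    rintro g ⟨m, m0, h⟩
    refine ⟨m, m0, fun r => ?_⟩
    obtain ⟨a, b, h⟩ := h (-r - 1)
    exact ⟨-a, b - a, fun n hn => by
      rw [Perm.mul_apply, hν', h _ (hn.neg.sub_right 1)]; push_cast; ring⟩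
  refine ⟨fun g hg => ?_, fun φ => ?_, ?_⟩
  · obtain ⟨a, b⟩ := mem_H.1 hg
    obtain ⟨m, m0, h⟩ := aff g a
    refine mem_H.2 ⟨⟨m, m0, fun r => ?_⟩, fun n => ?_⟩
    · obtain ⟨a, b, h⟩ := h r
      exact ⟨-a, -b - 1, fun n hn => by
        rw [mul_assoc, Perm.mul_apply, hν, Int.cast_sub, Int.cast_neg, h n hn]; push_cast; ring⟩
    · have := b (-n - 1)
      rw [Perm.mul_apply, Perm.mul_apply, hν, hν']; omega
  · obtain ⟨F, f1, f2, f3⟩ := conj hG φ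
    by_cases h : 0 ≤ F 0
    · exact ⟨F, mem_H.2 ⟨f1, fun n => by rw [f3 n]; tauto⟩, Or.inl f2⟩
    · refine ⟨F * ν⁻¹, mem_H.2 ⟨aff F f1, fun n => ?_⟩, Or.inr fun g => by rw [f2]; group⟩
      have := f3 (-n - 1)
      rw [Perm.mul_apply, hν']; omega
  · rintro ⟨h, hh, e⟩
    have h0 : h⁻¹ (-1) ≠ 0 := fun c => by
      have := (hG.pos _ (H.inv_mem hh) (-1)).1 c.ge
      omega
    obtain ⟨N, n1, n2⟩ := near_ne hG h0
    obtain ⟨τ, -, t⟩ := exT hG (h⁻¹ (-1)) n1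
    have t0 : τ.1 0 = 0 := by_contra fun c => by
      obtain ⟨k, c⟩ := (t 0).1 c
      exact n2 k (by linear_combination -c)
    have := Equiv.congr_fun (e τ τ.2) (-1)
    simp only [Perm.mul_apply, hν, hν'] at this
    rw [show - -1 - 1 = (0 : ℤ) by rfl, t0, eq_comm, ← Perm.eq_inv_iff_eq] at this
    exact (t _).2 (by simp) this

end Pool.Agent.H.MP_a5f8b0_al
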