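import Pool.Agent.H.MP_a5f8b0_al.CT

set_option autoImplicit false

namespace Pool.Agent.H.MP_a5f8b0_al

open Equiv Pool.Agent.H.MP_2b3d4e_al

def RR (Q : Set ℕ) : Subring ℚ where
  carrier := {ξ | ∀ q ∈ Q, q.Prime → ¬ q ∣ ξ.den}
  zero_mem' := fun _ _ h => h.not_dvd_one
  one_mem' := fun _ _ h => h.not_dvd_one
  add_mem' {a b} ha hb := fun q hq h d =>
    ((Nat.Prime.dvd_mul h).1 (d.trans (Rat.add_den_dvd a b))).elim (ha q hq h) (hb q hq h)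
  mul_mem' {a b} ha hb := fun q hq h d =>
    ((Nat.Prime.dvd_mul h).1 (d.trans (Rat.mul_den_dvd a b))).elim (ha q hq h) (hb q hq h)
  neg_mem' {a} ha := fun q hq h d => ha q hq h (by simpa using d)

variable {Q Q' : Set ℕ}

lemma Rq {q : ℕ} (hq : q.Prime) (h : q ∈ Q) (j : ℕ) {n D : ℤ} (hD : D ≠ 0)
    (hr : (n / (D * q ^ j) : ℚ) ∈ RR Q) : (q : ℤ) ^ j ∣ n := by
  have q0 : (q : ℚ) ≠ 0 := by exact_mod_cast hq.ne_zero
  have D0 : (D : ℚ) ≠ 0 := by exact_mod_cast hD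
  set ρ : ℚ := n / (D * q ^ j) with e
  have : (ρ.den : ℤ) * n = (q : ℤ) ^ j * (D * ρ.num) := by
    have := Rat.den_mul_eq_num ρ
    apply Int.cast_injective (α := ℚ)
    push_cast
    rw [← this, e]; field_simp
  exact IsCoprime.dvd_of_dvd_mul_left (IsCoprime.pow_left (Nat.isCoprime_iff_coprime.2
    ((Nat.Prime.coprime_iff_not_dvd hq).2 (hr q h hq)))) ⟨_, this⟩

lemma Rz {q : ℕ} (hq : q.Prime) (h : q ∈ Q) {η : ℚ} (hr : ∀ j : ℕ, η / q ^ j ∈ RR Q) : η = 0 := by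
  by_contra hc
  refine pow_ndvd hq.one_lt (Rat.num_ne_zero.2 hc) (Rq hq h _ (D := η.den) (by simp) ?_)
  rw [Int.cast_natCast, ← div_div, Rat.num_div_den]; exact hr _

lemma Rint {z M : ℤ} (h : Sm Q M) (hr : (z / M : ℚ) ∈ RR Q) : M ∣ z := by
  have : ((z : ℚ) / M).den = 1 := by
    by_contra hc
    obtain ⟨q, hq, d⟩ := Nat.exists_prime_and_dvd hc
    refine hr q (h.2 q hq ((Int.natCast_dvd_natCast.2 d).trans ?_)) hq d
    rw [← Rat.divInt_eq_div]; exact Rat.den_dvd z M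
  exact (Rat.den_div_intCast_eq_one_iff z M h.1.ne').1 this

variable {G G' : Subgroup (Perm ℤ)} (hG : CTG Q G) (hG' : CTG Q' G') (α : G ≃* G')

def Fo (x y M : ℤ) : Prop :=
  ∃ σ : G', σ * σ = 1 ∧ (∀ z, σ.1 z ≠ z ↔ M ∣ z - y) ∧ (α.symm σ).1 x ≠ x

lemma sq_map {τ : G} (h : τ * τ = 1) : α τ * α τ = 1 := by rw [← map_mul, h, map_one]

lemma Fo.congr {α : G ≃* G'} {x y y' M : ℤ} (h : Fo α x y M) (d : M ∣ y' - y) : Fo α x y' M := by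
  obtain ⟨σ, a, b, c⟩ := h
  exact ⟨σ, a, fun z => (b z).trans ⟨fun e => by simpa using dvd_sub e d,
    fun e => by simpa using dvd_add e d⟩, c⟩

lemma K6 {g : G} {x y M y' m : ℤ} (h : ∀ k, (α g).1 (y + M * k) = y' + m * k) (f : Fo α x y M) :
    Fo α (g.1 x) y' m := by
  obtain ⟨σ, a, b, c⟩ := f
  refine ⟨α g * σ * (α g)⁻¹, by
    rw [show α g * σ * (α g)⁻¹ * (α g * σ * (α g)⁻¹) = α g * (σ * σ) * (α g)⁻¹ by group, a]; simp,
    fun z => ?_, by simpa using c⟩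
  obtain ⟨w, rfl⟩ := (α g).1.surjective z
  rw [show (α g * σ * (α g)⁻¹).1 ((α g).1 w) = (α g).1 (σ.1 w) by simp, Ne, (α g).1.apply_eq_iff_eq]
  refine (b w).trans ⟨fun ⟨k, e⟩ => ⟨k, by rw [← sub_eq_zero, ← sub_add_eq_sub_sub, ← h, ← e]; simp⟩,
    fun ⟨k, e⟩ => ⟨k, ?_⟩⟩
  rw [(α g).1.injective (show (α g).1 w = (α g).1 (y + M * k) by rw [h, ← e]; ring)]; ring

include hG hG'

lemma K1 {τ : G} (h : τ * τ = 1) (b : G) :
    (∀ z, (α τ).1 z = z → (α b).1 z = z) ↔ ∀ z, τ.1 z = z → b.1 z = z := by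
  rw [← matui hG τ b h, ← matui hG' _ _ (sq_map α h), Wt.map]

lemma K2 {τ σ : G} (h : τ * τ = 1) (h' : σ * σ = 1) (d : ∀ z, τ.1 z = z ∨ σ.1 z = z) (y : ℤ) :
    (α τ).1 y = y ∨ (α σ).1 y = y := by
  by_contra hc
  rw [not_or] at hc
  obtain ⟨N, n1, n2⟩ := (near_fix hG' _ (sq_map α h) y).and (near_fix hG' _ (sq_map α h') y)
  obtain ⟨ρ, -, r2⟩ := exT hG' y n1
  obtain ⟨ρ, rfl⟩ := α.surjective ρ
  have k : ∀ z, (α ρ).1 z ≠ z → (α τ).1 z ≠ z ∧ (α σ).1 z ≠ z := fun z hz => by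
    obtain ⟨k, e⟩ := (r2 z).1 hz
    rw [show z = y + N * k by linear_combination e]
    exact ⟨fun e => hc.1 ((n2 k).1.1 e), fun e => hc.2 ((n2 k).2.1 e)⟩
  have : ρ = 1 := Subtype.ext (Equiv.ext fun z => (d z).elim
    ((K1 hG hG' α h ρ).1 (fun z e => by_contra fun c => (k z c).1 e) z)
    ((K1 hG hG' α h' ρ).1 (fun z e => by_contra fun c => (k z c).2 e) z))
  exact (r2 y).2 (by simp) (by simp [this])

lemma Fo.of {x y M : ℤ} (f : Fo α x y M) (σ : G') (b : ∀ z, M ∣ z - y → σ.1 z ≠ z) (a : σ * σ = 1) :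
    (α.symm σ).1 x ≠ x := by
  obtain ⟨σ', -, b', c⟩ := f
  exact fun e => c ((K1 hG' hG α.symm a σ').2
    (fun z e => by_contra fun c => b z ((b' z).1 c) e) x e)

lemma K3 (x : ℤ) {M : ℤ} (hM : Sm Q' M) : ∃ y, Fo α x y M := by
  choose σ s1 s2 using fun r => exT hG' r hM
  by_contra hc
  have hc : ∀ r, (α.symm (σ r)).1 x = x := fun r => by_contra fun e => hc ⟨r, σ r, s1 r, s2 r, e⟩
  obtain ⟨N, n1, n2⟩ := sm_fin (Q := Q) (Finset.Ico 0 M)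
    (fun r N => ∀ k, (α.symm (σ r)).1 (x + N * k) = x + N * k)
    (fun r N c h k => by rw [mul_assoc]; exact h _) fun r _ =>
      (near_fix hG _ (sq_map α.symm (s1 r)) x).mono fun z h => h.2 (hc r)
  obtain ⟨τ, t1, t2⟩ := exT hG x n1
  have : α τ = 1 := Subtype.ext (Equiv.ext fun z => by
    have hz : z % M ∈ Finset.Ico 0 M :=
      Finset.mem_Ico.2 ⟨Int.emod_nonneg _ hM.1.ne', Int.emod_lt_of_pos _ hM.1⟩
    refine (K2 hG hG' α t1 (sq_map α.symm (s1 (z % M))) (fun w => ?_) z).resolve_right ?_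
    · refine (em _).imp_right fun e => ?_
      obtain ⟨k, e⟩ := (t2 w).1 e
      rw [show w = x + N * k by linear_combination e]; exact n2 _ hz k
    · rw [α.apply_symm_apply]; exact (s2 _ z).2 (Int.dvd_self_sub_emod ..))
  exact (t2 x).2 (by simp) (by simp [α.map_eq_one_iff.1 this])

lemma K4 {x y M y' M' : ℤ} (f : Fo α x y M) (f' : Fo α x y' M') : ∃ z, M ∣ z - y ∧ M' ∣ z - y' := by
  obtain ⟨σ, a, b, c⟩ := f
  obtain ⟨σ', a', b', c'⟩ := f'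
  by_contra hc
  exact (K2 hG' hG α.symm a a' (fun z => by_contra fun e => by
    rw [not_or] at e; exact hc ⟨z, (b z).1 e.1, (b' z).1 e.2⟩) x).elim c c'

lemma K4' {x y M y' M' : ℤ} (f : Fo α x y M) (f' : Fo α x y' M') (d : M ∣ M') : M ∣ y' - y := by
  obtain ⟨z, a, b⟩ := K4 hG hG' α f f'
  simpa using dvd_sub a (d.trans b)

lemma K5 {M : ℤ} (hM : Sm Q' M) :
    ∃ P, Sm Q P ∧ ∀ x k y, Fo α x y M → Fo α (x + P * k) y M := by
  choose σ s1 s2 using fun r => exT hG' r hM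
  obtain ⟨N, n1, n2⟩ := sm_fin (Q := Q) (Finset.Ico 0 M)
    (fun r N => ∀ x k, (α.symm (σ r)).1 (x + N * k) = x + N * k ↔ (α.symm (σ r)).1 x = x)
    (fun r N c h x k => by rw [mul_assoc]; exact h _ _) fun r _ =>
      inv_per hG _ (sq_map α.symm (s1 r))
  refine ⟨N, n1, fun x k y f => ?_⟩
  have hz : y % M ∈ Finset.Ico 0 M :=
    Finset.mem_Ico.2 ⟨Int.emod_nonneg _ hM.1.ne', Int.emod_lt_of_pos _ hM.1⟩
  have d : M ∣ y - y % M := Int.dvd_self_sub_emod ..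
  exact Fo.congr ⟨_, s1 _, s2 _, (n2 _ hz x k).not.2 (f.of hG hG' α _
    (fun z e => (s2 _ z).2 (by simpa using dvd_add e d)) (s1 _))⟩ d

lemma K8 {τ u : G} (h : τ * τ = 1) (hu : ∀ z, τ.1 z ≠ z → u.1 z = z) (y : ℤ) (hy : (α τ).1 y ≠ y) :
    (α u).1 y = y := by
  by_contra hc
  obtain ⟨N, n1, n2⟩ := sep hG' (y := 0) _ hc (near_fix hG' _ (sq_map α h) y)
  obtain ⟨ρ, -, r2⟩ := exT hG' y n1
  obtain ⟨ρ, rfl⟩ := α.surjective ρ
  have k := (K1 hG hG' α h ρ).1 fun z e => by_contra fun c => hy ((n2 z ((r2 z).1 c)).1.1 e)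
  have : u * ρ = ρ * u := Subtype.ext (comm_of fun z => (em _).elim (fun e => Or.inr (k z e))
    fun e => Or.inl (hu z e))
  have := congrArg (fun t => (α t).1) this
  simp only [map_mul, Subgroup.coe_mul] at this
  exact (n2 y (by simp)).2 ((r2 _).1 ((supp_inv this y).not.2 ((r2 y).2 (by simp))))

lemma K9 {τ : G} (h : τ * τ = 1) :
    ∃ P, Sm Q' P ∧ ∀ x y M, P ∣ M → Fo α x y M → (τ.1 x ≠ x ↔ (α τ).1 y ≠ y) := by
  obtain ⟨P, p1, p2⟩ := inv_per hG' _ (sq_map α h)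
  have k : ∀ y M z, P ∣ M → M ∣ z - y → ((α τ).1 z = z ↔ (α τ).1 y = y) := fun y M z d e => by
    obtain ⟨k, e⟩ := d.trans e
    rw [show z = y + P * k by linear_combination e]; exact p2 y k
  refine ⟨P, p1, fun x y M d f => ⟨fun hx e => ?_, fun hy => ?_⟩⟩
  · obtain ⟨σ, a, b, c⟩ := f
    refine (K2 hG' hG α.symm a (sq_map α h) (fun z => (em _).imp_right fun e' =>
      (k y M z d ((b z).1 e')).2 e) x).elim c (by simpa using hx)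
  · simpa using f.of hG hG' α _ (fun z e => (k y M z d e).not.2 hy) (sq_map α h)

omit hG hG' in
def Germ (Q' : Set ℕ) (g : G) (x : ℤ) (A : ℚ × ℚ) : Prop :=
  (∃ m N : ℤ, Sm Q' m ∧ Sm Q' N ∧ A.1 * N = m) ∧
    ∃ M0, Sm Q' M0 ∧ ∀ y M, M0 ∣ M → Fo α x y M → ((α g).1 y : ℚ) = A.1 * y + A.2

lemma G1 (g : G) : ∃ P, Sm Q P ∧ ∀ x, ∃ A, ∀ k, Germ α Q' g (x + P * k) A := by
  obtain ⟨N, n1, n2⟩ := hG'.aff _ (α g).2
  obtain ⟨P, p1, p2⟩ := K5 hG hG' α n1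
  refine ⟨P, p1, fun x => ?_⟩
  obtain ⟨y, f⟩ := K3 hG hG' α x n1
  obtain ⟨m, m1, m2⟩ := n2 y
  have N0 : (N : ℚ) ≠ 0 := by exact_mod_cast n1.1.ne'
  refine ⟨(m / N, (α g).1 y - m / N * y), fun k => ⟨⟨m, N, m1, n1, by simp [N0]⟩, N, n1,
    fun y' M d f' => ?_⟩⟩
  obtain ⟨j, e⟩ := K4' hG hG' α (p2 x k y f) f' d
  rw [show y' = y + N * j by linear_combination e, m2]
  push_cast; field_simp; ring

lemma G2 {g g' : G} {x : ℤ} {A A' : ℚ × ℚ} (h : Germ α Q' g x A) (h' : Germ α Q' g' x A')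
    (e : Near Q x fun z => g.1 z = g'.1 z) : A = A' := by
  obtain ⟨-, M, m1, m2⟩ := h
  obtain ⟨-, M', m1', m2'⟩ := h'
  obtain ⟨N, n1, n2⟩ := e
  obtain ⟨τ, t1, t2⟩ := exT hG x n1
  obtain ⟨P, p1, p2⟩ := K9 hG hG' α t1
  have s := (m1.mul m1').mul p1
  obtain ⟨y, f⟩ := K3 hG hG' α x s
  have k : ∀ y, Fo α x y (M * M' * P) → A.1 * y + A.2 = A'.1 * y + A'.2 := fun y f => by
    have := K8 hG hG' α (u := g'⁻¹ * g) t1 (fun z hz => by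
      obtain ⟨k, e⟩ := (t2 z).1 hz
      rw [show z = x + N * k by linear_combination e]
      simp [n2 k]) y ((p2 x y _ (dvd_mul_left _ _) f).1 ((t2 x).2 (by simp)))
    rw [map_mul, map_inv, Subgroup.coe_mul, Subgroup.coe_inv, Perm.mul_apply,
      Perm.inv_eq_iff_eq] at this
    rw [← m2 y _ ⟨M' * P, by ring⟩ f, ← m2' y _ ⟨M * P, by ring⟩ f, this]
  have k1 := k y f
  have k2 := k (y + M * M' * P) (f.congr (by simp))
  have : ((M * M' * P : ℤ) : ℚ) ≠ 0 := by exact_mod_cast s.1.ne'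
  have e1 : A.1 = A'.1 := mul_right_cancel₀ this (by push_cast at k2 ⊢; linear_combination k2 - k1)
  exact Prod.ext e1 (by rw [e1] at k1; linear_combination k1)

omit hG hG' in
lemma germ_fo {g : G} {x y m N M0 c : ℤ} {A : ℚ × ℚ} (e : A.1 * N = m)
    (h : ∀ y M, M0 ∣ M → Fo α x y M → ((α g).1 y : ℚ) = A.1 * y + A.2) (f : Fo α x y (N * (M0 * c))) :
    Fo α (g.1 x) ((α g).1 y) (m * (M0 * c)) :=
  K6 α (fun k => Int.cast_injective (α := ℚ) (by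
    rw [h _ _ ⟨N * c, by ring⟩ (f.congr (by simp)), Int.cast_add ((α g).1 y),
      h _ _ ⟨N * c, by ring⟩ f]
    push_cast; rw [← e]; ring)) f

omit hG hG' in
def cp (A' A : ℚ × ℚ) : ℚ × ℚ := (A'.1 * A.1, A'.1 * A.2 + A'.2)

omit hG hG' in
lemma G3 {g g' : G} {x : ℤ} {A A' : ℚ × ℚ} (h : Germ α Q' g x A) (h' : Germ α Q' g' (g.1 x) A') :
    Germ α Q' (g' * g) x (cp A' A) := by
  obtain ⟨⟨m, N, a1, a2, a3⟩, M, m1, m2⟩ := h
  obtain ⟨⟨m', N', b1, b2, b3⟩, M', m1', m2'⟩ := h'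
  refine ⟨⟨m' * m, N' * N, b1.mul a1, b2.mul a2, by push_cast; rw [← a3, ← b3, cp]; ring⟩,
    N * (M * M'), a2.mul (m1.mul m1'), ?_⟩
  rintro y _ ⟨c, rfl⟩ f
  rw [show N * (M * M') * c = N * (M * (M' * c)) by ring] at f
  rw [map_mul, Subgroup.coe_mul, Perm.mul_apply, m2' _ _ ⟨m * M * c, by ring⟩ (germ_fo α a3 m2 f),
    m2 _ _ ⟨N * M' * c, by ring⟩ f, cp]
  ring

omit hG hG' in
def Val (Q' : Set ℕ) (x : ℤ) (ξ : ℚ) : Prop := ∀ y M, Sm Q' M → Fo α x y M → (y - ξ) / M ∈ RR Q'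

lemma G4 {g : G} {x : ℤ} {A : ℚ × ℚ} {ξ : ℚ} (v : Val α Q' x ξ) (h : Germ α Q' g x A) :
    Val α Q' (g.1 x) (A.1 * ξ + A.2) := by
  obtain ⟨⟨m, N, a1, a2, a3⟩, M, m1, m2⟩ := h
  intro y' M' s f'
  have s2 := a2.mul (m1.mul s)
  obtain ⟨y, f⟩ := K3 hG hG' α x s2
  obtain ⟨j, e⟩ := K4' hG hG' α f' (germ_fo α a3 m2 f) ⟨m * M, by ring⟩
  have e' : (((α g).1 y : ℤ) : ℚ) - y' = M' * j := by exact_mod_cast e
  rw [m2 _ _ ⟨N * M', by ring⟩ f] at e'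
  have := (RR Q').sub_mem ((RR Q').mul_mem (intCast_mem _ (m * M)) (v y _ s2 f)) (intCast_mem _ j)
  have h1 : (N : ℚ) ≠ 0 := by exact_mod_cast a2.1.ne'
  have h2 : (M : ℚ) ≠ 0 := by exact_mod_cast m1.1.ne'
  have h3 : (M' : ℚ) ≠ 0 := by exact_mod_cast s.1.ne'
  rwa [show ((m * M : ℤ) : ℚ) * ((y - ξ) / (N * (M * M') : ℤ)) - j = (y' - (A.1 * ξ + A.2)) / M' by
    push_cast; rw [← a3]; field_simp; linear_combination e'] at this

lemma Val.uniq {x : ℤ} {ξ ξ' : ℚ} (v : Val α Q' x ξ) (v' : Val α Q' x ξ') : ξ = ξ' := by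
  refine sub_eq_zero.1 (Rz Nat.prime_two hG'.two fun j => ?_)
  have s := (sm_two hG').pow j
  obtain ⟨y, f⟩ := K3 hG hG' α x s
  have := (RR Q').sub_mem (v' y _ s f) (v y _ s f)
  rwa [← sub_div, sub_sub_sub_cancel_left, Int.cast_pow] at this

lemma Val.fo {x y M : ℤ} {ξ : ℚ} (v : Val α Q' x ξ) (s : Sm Q' M) (h : (y - ξ) / M ∈ RR Q') :
    Fo α x y M := by
  obtain ⟨y0, f⟩ := K3 hG hG' α x s
  have := (RR Q').sub_mem h (v y0 _ s f)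
  rw [← sub_div, sub_sub_sub_cancel_right, ← Int.cast_sub] at this
  exact f.congr (Rint s this)

lemma Val.cont (x : ℤ) {N : ℤ} (hN : Sm Q N) : ∃ P, Sm Q' P ∧ ∀ x' ξ ξ', Val α Q' x ξ →
    Val α Q' x' ξ' → (ξ - ξ') / P ∈ RR Q' → N ∣ x' - x := by
  obtain ⟨τ, t1, t2⟩ := exT hG x hN
  obtain ⟨P, p1, p2⟩ := K9 hG hG' α t1
  refine ⟨P, p1, fun x' ξ ξ' v v' h => ?_⟩
  obtain ⟨y, f⟩ := K3 hG hG' α x p1
  have := (RR Q').add_mem (v y _ p1 f) h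
  rw [← add_div, sub_add_sub_cancel] at this
  exact (t2 _).1 ((p2 _ _ _ dvd_rfl (v'.fo hG hG' α p1 this)).2
    ((p2 _ _ _ dvd_rfl f).1 ((t2 x).2 (by simp))))

lemma Val.inj {x x' : ℤ} {ξ : ℚ} (v : Val α Q' x ξ) (v' : Val α Q' x' ξ) : x = x' := by
  by_contra hc
  obtain ⟨N, n1, n2⟩ := near_ne hG hc
  obtain ⟨P, -, p2⟩ := Val.cont hG hG' α x n1
  obtain ⟨k, e⟩ := p2 x' ξ ξ v v' (by simp)
  exact n2 k (by linear_combination -e)

lemma Val.near {x : ℤ} {M : ℤ} (hM : Sm Q' M) : ∃ P, Sm Q P ∧ ∀ k ξ ξ', Val α Q' x ξ →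
    Val α Q' (x + P * k) ξ' → (ξ - ξ') / M ∈ RR Q' := by
  obtain ⟨P, p1, p2⟩ := K5 hG hG' α hM
  obtain ⟨y, f⟩ := K3 hG hG' α x hM
  refine ⟨P, p1, fun k ξ ξ' v v' => ?_⟩
  have := (RR Q').sub_mem (v' y _ hM (p2 x k y f)) (v y _ hM f)
  rwa [← sub_div, sub_sub_sub_cancel_left] at this

end Pool.Agent.H.MP_a5f8b0_al
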