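import Pool.Agent.H.MP_a5f8b0_al.Fo

set_option autoImplicit false

namespace Pool.Agent.H.MP_a5f8b0_al

open Equiv Pool.Agent.H.MP_2b3d4e_al

variable {Q Q' : Set ℕ}

lemma RR_iff {ξ : ℚ} : ξ ∈ RR Q ↔ ∀ q ∈ Q, q.Prime → ξ ∈ RR {q} :=
  ⟨fun h q hq _ _ e => by rw [e]; exact h q hq, fun h q hq p => h q hq p q rfl p⟩

lemma Rd {q : ℕ} (hq : q.Prime) {d : ℤ} (hd : d ≠ 0) : ((q : ℚ) ^ d.natAbs / d) ∈ RR {q} := by
  intro q' e' _ h
  rw [show q' = q from e'] at h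
  set ρ : ℚ := q ^ d.natAbs / d with e
  have d0 : (d : ℚ) ≠ 0 := by exact_mod_cast hd
  have : ρ.num * d = (q : ℤ) ^ d.natAbs * ρ.den := by
    have := Rat.den_mul_eq_num ρ
    apply Int.cast_injective (α := ℚ)
    push_cast
    rw [← this, e]; field_simp
  refine pow_ndvd hq.one_lt hd (IsCoprime.dvd_of_dvd_mul_left (IsCoprime.pow_left ?_) ⟨_, this⟩)
  exact Int.isCoprime_iff_gcd_eq_one.2 (Nat.Coprime.coprime_dvd_left h ρ.reduced.symm)

lemma Rs {s : ℚ} {m N : ℤ} (a : Sm Q m) (b : Sm Q N) (e : s * N = m) (h : s ≠ 1) :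
    ∃ q ∈ Q, q.Prime ∧ ∀ k : ℕ, k ≠ 0 → s ^ k ≠ 1 ∧ (1 - s ^ k)⁻¹ ∈ RR {q} := by
  have N0 : (0 : ℚ) < N := by exact_mod_cast b.1
  have m0 : (0 : ℚ) < m := by exact_mod_cast a.1
  have s0 : 0 < s := (mul_pos_iff_of_pos_right N0).1 (e ▸ m0)
  have e' : s.num * N = s.den * m := by
    apply Int.cast_injective (α := ℚ)
    push_cast
    rw [← e, ← Rat.den_mul_eq_num s]; ring
  have c : IsCoprime s.num s.den := Int.isCoprime_iff_gcd_eq_one.2 s.reduced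
  have : s.num.natAbs * s.den ≠ 1 := fun h' => h (by
    have h1 := Nat.eq_one_of_mul_eq_one_right h'
    have h2 := Rat.num_pos.2 s0
    rw [← Rat.num_div_den s, Nat.eq_one_of_mul_eq_one_left h', show s.num = 1 by omega]; simp)
  obtain ⟨q, hq, d⟩ := Nat.exists_prime_and_dvd this
  have hq' := Nat.prime_iff_prime_int.1 hq
  have nc : (q : ℤ) ∣ s.num → (q : ℤ) ∣ s.den → False := fun x y =>
    hq'.not_unit (c.isUnit_of_dvd' x y)
  have d : (q : ℤ) ∣ s.num ∨ (q : ℤ) ∣ s.den :=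
    ((Nat.Prime.dvd_mul hq).1 d).imp Int.natCast_dvd.2 Int.natCast_dvd_natCast.2
  refine ⟨q, d.elim (fun d => a.2 q hq ((hq'.dvd_or_dvd (e' ▸ d.mul_right N)).resolve_left (nc d)))
    fun d => b.2 q hq ((hq'.dvd_or_dvd (e' ▸ d.mul_right m)).resolve_left (nc · d)), hq,
    fun k hk => ⟨fun h' => h ((pow_eq_one_iff_of_nonneg s0.le hk).1 h'), ?_⟩⟩
  rintro _ rfl - h'
  have d0 : (s.den : ℚ) ≠ 0 := by simp
  rw [show (1 - s ^ k)⁻¹ = Rat.divInt (s.den ^ k) (s.den ^ k - s.num ^ k) by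
    rw [Rat.divInt_eq_div, ← inv_div]; push_cast
    rw [sub_div, div_self (pow_ne_zero _ d0), ← div_pow, Rat.num_div_den]] at h'
  have := (Int.natCast_dvd_natCast.2 h').trans (Rat.den_dvd _ _)
  rcases d with d | d
  · exact nc d (hq'.dvd_of_dvd_pow ((dvd_sub_left (dvd_pow d hk)).1 this))
  · exact nc (hq'.dvd_of_dvd_pow ((dvd_sub_right (dvd_pow d hk)).1 this)) d

lemma cp_inj {A A' B : ℚ × ℚ} (h : cp A B = cp A' B) (hB : B.1 ≠ 0) : A = A' := by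
  obtain ⟨h1, h2⟩ := Prod.ext_iff.1 h
  have e := mul_right_cancel₀ hB h1
  simp only [cp, e] at h2
  exact Prod.ext e (add_left_cancel h2)

variable {G G' : Subgroup (Perm ℤ)} (hG : CTG Q G) (hG' : CTG Q' G') (α : G ≃* G')

def Im (Q Q' : Set ℕ) (φ : ℤ → ℤ) (x : ℤ) (A : ℚ × ℚ) : Prop :=
  ∃ g : G, Near Q x (fun z => g.1 z = φ z) ∧ Germ α Q' g x A

lemma Im.ne {φ : ℤ → ℤ} {x : ℤ} {A : ℚ × ℚ} (h : Im α Q Q' φ x A) : A.1 ≠ 0 := by
  obtain ⟨g, -, ⟨m, N, a, -, e⟩, -⟩ := h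
  intro h
  rw [h, zero_mul] at e
  exact a.1.ne (by exact_mod_cast e)

lemma Im.id (x : ℤ) : Im α Q Q' (fun z => z) x (1, 0) :=
  ⟨1, ⟨1, sm_one, by simp⟩, ⟨1, 1, sm_one, sm_one, by simp⟩, 1, sm_one, by simp⟩

include hG

lemma exG (r x : ℤ) (r0 : 0 ≤ r) (r1 : r < 2) (x0 : 0 ≤ x) (x1 : x < 4) :
    ∃ g : G, ∀ k, g.1 (x + 4 * k) = 2 * (x + 4 * k) + r := by
  have f : Sm Q 4 := (sm_two hG).mul (sm_two hG)
  have e : Sm Q 8 := (sm_two hG).mul f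
  obtain ⟨c, c1, c2⟩ : ∃ c : ℤ, (c = 0 ∨ c = 2) ∧ (c = 2 ↔ x = 0) := by
    by_cases h : x = 0
    · exact ⟨2, by omega, by omega⟩
    · exact ⟨0, by omega, by omega⟩
  obtain ⟨σ, h, -⟩ := ex_sw hG (x := x) (y := c) f e (fun k l => by omega) fun k => by omega
  obtain ⟨τ, h', -⟩ := ex_sw hG (x := c) (y := 2 * x + r) e e (fun k l => by omega) fun k => by omega
  exact ⟨τ * σ, fun k => by
    rw [Subgroup.coe_mul, Perm.mul_apply, (h k).1, (h' k).1]; ring⟩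

lemma Im.comp {φ ψ : ℤ → ℤ} {x : ℤ} {A A' : ℚ × ℚ} (h : Im α Q Q' φ x A)
    (h' : Im α Q Q' ψ (φ x) A') : Im α Q Q' (fun z => ψ (φ z)) x (cp A' A) := by
  obtain ⟨g, a, b⟩ := h
  obtain ⟨g', a', b'⟩ := h'
  rw [← a.self] at a' b'
  exact ⟨g' * g, (a.and (near_comp hG g a')).mono fun z h => by
    rw [Subgroup.coe_mul, Perm.mul_apply, h.2, h.1], G3 α b b'⟩

include hG'

lemma Im.uniq {φ ψ : ℤ → ℤ} {x : ℤ} {A A' : ℚ × ℚ} (h : Im α Q Q' φ x A)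
    (h' : Im α Q Q' ψ x A') (e : ∀ z, φ z = ψ z) : A = A' := by
  obtain ⟨g, a, b⟩ := h
  obtain ⟨g', a', b'⟩ := h'
  exact G2 hG hG' α b b' ((a.and a').mono fun z h => by rw [h.1, h.2, e])

lemma Im.val {φ : ℤ → ℤ} {x : ℤ} {A : ℚ × ℚ} {ξ : ℚ} (h : Im α Q Q' φ x A) (v : Val α Q' x ξ) :
    Val α Q' (φ x) (A.1 * ξ + A.2) := by
  obtain ⟨g, a, b⟩ := h
  rw [← a.self]; exact G4 hG hG' α v b

lemma val0 : ∃ ξ, Val α Q' 0 ξ := by
  obtain ⟨g, hg⟩ := exG hG 0 0 le_rfl (by omega) le_rfl (by omega)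
  have g0 : g.1 0 = 0 := by simpa using hg 0
  obtain ⟨P, -, p⟩ := G1 hG hG' α g
  obtain ⟨A, p⟩ := p 0
  obtain ⟨⟨m, N, a1, a2, a3⟩, M0, m1, m2⟩ := p 0
  rw [mul_zero, add_zero] at m2
  have key : ∀ c, Sm Q' c → ∃ y t : ℤ, Fo α 0 y (N * (M0 * c)) ∧ (A.1 - 1) * y + A.2 = c * t := by
    intro c hc
    obtain ⟨y, f⟩ := K3 hG hG' α 0 (a2.mul (m1.mul hc))
    have f' := germ_fo α a3 m2 f
    rw [g0] at f'
    obtain ⟨z, ⟨i, hi⟩, j, hj⟩ := K4 hG hG' α f f'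
    refine ⟨y, N * M0 * i - m * M0 * j, f, ?_⟩
    have : (α g).1 y - y = c * (N * M0 * i - m * M0 * j) := by linear_combination hi - hj
    have := congrArg (Int.cast : ℤ → ℚ) this
    rw [Int.cast_sub, m2 _ _ ⟨N * c, by ring⟩ f, Int.cast_mul] at this
    linear_combination this
  have h1 : (N : ℚ) ≠ 0 := by exact_mod_cast a2.1.ne'
  by_cases hA : A.1 = 1
  · exfalso
    have hb : A.2 = 0 := Rz Nat.prime_two hG'.two fun j => by
      obtain ⟨y, t, -, e⟩ := key _ ((sm_two hG').pow j)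
      rw [show A.2 / ((2 : ℕ) : ℚ) ^ j = t by
        rw [hA] at e; push_cast at e ⊢; field_simp; linear_combination e]
      exact intCast_mem _ t
    obtain ⟨y, -, f, -⟩ := key 1 sm_one
    obtain ⟨σ, s1, s2, s3⟩ := id f
    obtain ⟨L, l1, l2⟩ := near_fix hG _ (sq_map α.symm s1) 0
    have := K8 hG' hG α.symm (u := α g) s1 (fun z hz => Int.cast_injective (α := ℚ) (by
      rw [m2 _ _ ⟨N, by ring⟩ (f.congr ((s2 z).1 hz)), hA, hb]; ring)) _ ((l2 4).not.2 s3)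
    rw [α.symm_apply_apply, mul_comm L, hg] at this
    have := l1.1
    omega
  refine ⟨A.2 / (1 - A.1), fun y M s f => RR_iff.2 fun q hq hp => ?_⟩
  have d0 : m - N ≠ 0 := fun e => hA (mul_right_cancel₀ h1 (by
    rw [a3, one_mul, sub_eq_zero.1 e]))
  obtain ⟨y', t, f', e⟩ := key _ (s.mul ((sm_prime hp hq).pow (m - N).natAbs))
  obtain ⟨j, hj⟩ := K4' hG hG' α f f' ⟨N * M0 * q ^ (m - N).natAbs, by ring⟩
  have := (RR {q}).sub_mem ((RR {q}).mul_mem (Rd hp d0) (intCast_mem _ (t * N))) (intCast_mem _ j)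
  have h2 : (M : ℚ) ≠ 0 := by exact_mod_cast s.1.ne'
  have h3 : 1 - A.1 ≠ 0 := sub_ne_zero.2 (Ne.symm hA)
  have h4 : A.1 - 1 ≠ 0 := sub_ne_zero.2 hA
  have hj' : (y' : ℚ) - y = M * j := by exact_mod_cast hj
  rwa [show (q : ℚ) ^ (m - N).natAbs / (m - N : ℤ) * (t * N : ℤ) - j = (y - A.2 / (1 - A.1)) / M by
    push_cast at e ⊢
    rw [← a3, show A.1 * N - N = (A.1 - 1) * N by ring]
    generalize (q : ℚ) ^ (m - N).natAbs = w at e
    field_simp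
    linear_combination (exp := 1) (1 - A.1) * (-e + (A.1 - 1) * hj')] at this

lemma per_of (φ : ℤ → ℤ) {N : ℤ} (hN : Sm Q N) (S : ℤ → Prop)
    (h : ∀ r, 0 ≤ r → r < N → S r → ∃ g : G, ∀ k, g.1 (r + N * k) = φ (r + N * k)) :
    ∃ P, Sm Q P ∧ ∀ x, S (x % N) → ∃ A, ∀ k, Im α Q Q' φ (x + P * k) A := by
  choose! g hg using h
  obtain ⟨P, p1, p2⟩ := sm_fin (Q := Q) (Finset.Ico 0 N)
    (fun r P => ∀ x, ∃ A, ∀ k, Germ α Q' (g r) (x + P * k) A)
    (fun r P c h x => (h x).imp fun A h k => by rw [mul_assoc]; exact h _) fun r _ => G1 hG hG' α _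
  refine ⟨P * N, p1.mul hN, fun x hx => ?_⟩
  have x0 := Int.emod_nonneg x hN.1.ne'
  have x1 := Int.emod_lt_of_pos x hN.1
  obtain ⟨A, hA⟩ := p2 _ (Finset.mem_Ico.2 ⟨x0, x1⟩) x
  refine ⟨A, fun k => ⟨g (x % N), ⟨N, hN, fun l => ?_⟩, by rw [mul_assoc]; exact hA _⟩⟩
  rw [show x + P * N * k + N * l = x % N + N * (x / N + P * k + l) by rw [Int.emod_def]; ring]
  exact hg _ x0 x1 hx _

lemma TL {N : ℤ} (hN : Sm Q N) :
    ∃ P, Sm Q P ∧ ∀ x, ¬ N ∣ x + 1 → ∃ A, ∀ k, Im α Q Q' (· + 1) (x + P * k) A := by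
  obtain ⟨P, p1, p2⟩ := per_of hG hG' α (· + 1) hN (fun r => r + 1 < N) fun r r0 r1 h => by
    obtain ⟨σ, hσ, -⟩ := ex_sw hG (x := r) (y := r + 1) hN hN
      (fun k l e => by have := (decomp_unique r0 r1 (by omega) h e).1; omega) fun k => by
        rw [(good_cls r0 r1).nonneg, (good_cls (by omega) h).nonneg]
    exact ⟨σ, fun k => by rw [(hσ k).1]; ring⟩
  refine ⟨P, p1, fun x hx => p2 x (lt_of_le_of_ne (Int.emod_lt_of_pos x hN.1) fun e => hx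
    ⟨x / N + 1, ?_⟩)⟩
  rw [Int.emod_def] at e; linear_combination e

lemma Tex {x : ℤ} (hx : x + 1 ≠ 0) : ∃ A, Im α Q Q' (· + 1) x A := by
  obtain ⟨P, -, p⟩ := TL hG hG' α ((sm_two hG).pow (x + 1).natAbs)
  obtain ⟨A, p⟩ := p x (pow_ndvd (q := 2) one_lt_two hx)
  exact ⟨A, by simpa using p 0⟩

lemma TR : ∃ P, Sm Q P ∧ ∀ (K : ℕ) (x c : ℤ) A, ¬ 2 ^ K ∣ x + 1 → Im α Q Q' (· + 1) x A →
    Im α Q Q' (· + 1) (x + 2 ^ K * (P * c)) A := by
  have f : Sm Q 4 := (sm_two hG).mul (sm_two hG)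
  obtain ⟨P0, a1, a2⟩ := per_of hG hG' α (fun z => 2 * z + 0) f (fun _ => True)
    fun x x0 x1 _ => exG hG 0 x le_rfl (by omega) x0 x1
  obtain ⟨P1, b1, b2⟩ := per_of hG hG' α (fun z => 2 * z + 1) f (fun _ => True)
    fun x x0 x1 _ => exG hG 1 x (by omega) (by omega) x0 x1
  refine ⟨P0 * P1, a1.mul b1, fun K => ?_⟩
  induction K with
  | zero => simp
  | succ K ih =>
    intro x c A hx h
    obtain ⟨A', h'⟩ := Tex hG hG' α (x := x + 2 ^ (K + 1) * (P0 * P1 * c)) fun e =>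
      hx ⟨-(P0 * P1 * c), by linear_combination e⟩
    suffices A = A' by rwa [this]
    have a2 : ∀ z, ∃ B, Im α Q Q' (fun z => 2 * z + 0) z B ∧
        Im α Q Q' (fun z => 2 * z + 0) (z + 2 ^ K * (P0 * P1 * c)) B := fun z =>
      (a2 z trivial).imp fun B h => ⟨by simpa using h 0, by
        rw [show 2 ^ K * (P0 * P1 * c) = P0 * (2 ^ K * P1 * c) by ring]; exact h _⟩
    have b2 : ∀ z, ∃ B, Im α Q Q' (fun z => 2 * z + 1) z B ∧
        Im α Q Q' (fun z => 2 * z + 1) (z + 2 ^ K * (P0 * P1 * c)) B := fun z =>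
      (b2 z trivial).imp fun B h => ⟨by simpa using h 0, by
        rw [show 2 ^ K * (P0 * P1 * c) = P1 * (2 ^ K * P0 * c) by ring]; exact h _⟩
    obtain ⟨z, rfl | rfl⟩ := Int.even_or_odd' x
    · obtain ⟨B, u, u'⟩ := a2 z
      obtain ⟨B', w, w'⟩ := b2 z
      rw [show 2 * z + 2 ^ (K + 1) * (P0 * P1 * c) = 2 * (z + 2 ^ K * (P0 * P1 * c)) + 0 by ring] at h'
      rw [← add_zero (2 * z)] at h
      exact cp_inj (((u.comp hG α h).uniq hG hG' α w fun z => by ring).trans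
        ((u'.comp hG α h').uniq hG hG' α w' fun z => by ring).symm) (u.ne α)
    · obtain ⟨B, u, u'⟩ := a2 (z + 1)
      obtain ⟨B', w, w'⟩ := b2 z
      have hz : ¬ 2 ^ K ∣ z + 1 := fun ⟨j, e⟩ => hx ⟨j, by linear_combination 2 * e⟩
      obtain ⟨C, v⟩ := Tex hG hG' α (x := z) fun e => hz (by simp [e])
      rw [show 2 * z + 1 + 2 ^ (K + 1) * (P0 * P1 * c) = 2 * (z + 2 ^ K * (P0 * P1 * c)) + 1 by ring]
        at h'
      rw [add_right_comm] at u'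
      exact cp_inj (((w.comp hG α h).uniq hG hG' α (v.comp hG α u) fun z => by ring).trans
        ((w'.comp hG α h').uniq hG hG' α ((ih z c C hz v).comp hG α u') fun z => by ring).symm)
          (w.ne α)

variable {p : ℕ} (hp : p.Prime) (h2 : p ≠ 2) (hQ : p ∈ Q)
include hp h2 hQ

lemma TP : ∃ P, Sm Q P ∧ ∀ x k A, x + 1 ≠ 0 → x + P * k + 1 ≠ 0 → Im α Q Q' (· + 1) x A →
    Im α Q Q' (· + 1) (x + P * k) A := by
  obtain ⟨P, p1, p2⟩ := TR hG hG' α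
  obtain ⟨L, l1, l2⟩ := TL hG hG' α ((sm_prime hp hQ).pow P.natAbs)
  refine ⟨L, l1, fun x k A hx hx' h => ?_⟩
  set K := ((x + 1) * (x + L * k + 1)).natAbs
  have k0 := pow_ndvd (q := 2) one_lt_two (mul_ne_zero hx hx')
  have k1 : ¬ 2 ^ K ∣ x + 1 := fun e => k0 (e.mul_right _)
  have k2 : ¬ 2 ^ K ∣ x + L * k + 1 := fun e => k0 (e.mul_left _)
  obtain ⟨c, hc⟩ : ∃ c, ¬ (p : ℤ) ^ P.natAbs ∣ x + 2 ^ K * (P * c) + 1 := by
    by_contra hc
    push Not at hc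
    have := dvd_sub (hc 1) (hc 0)
    rw [show x + 2 ^ K * (P * 1) + 1 - (x + 2 ^ K * (P * 0) + 1) = 2 ^ K * P by ring] at this
    exact pow_ndvd hp.one_lt p1.1.ne' (IsCoprime.dvd_of_dvd_mul_left (IsCoprime.pow
      (Nat.isCoprime_iff_coprime.2 ((Nat.coprime_primes hp Nat.prime_two).2 h2))) this)
  obtain ⟨B, b⟩ := l2 _ hc
  have b0 := b 0
  rw [mul_zero, add_zero] at b0
  rw [(p2 K x c A k1 h).uniq hG hG' α b0 fun _ => rfl]
  have := p2 K _ (-c) B (fun e => k2 (by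
    rwa [show x + 2 ^ K * (P * c) + L * k + 1 = x + L * k + 1 + 2 ^ K * (P * c) by ring,
      dvd_add_left (dvd_mul_right _ _)] at e)) (b k)
  rwa [show x + 2 ^ K * (P * c) + L * k + 2 ^ K * (P * -c) = x + L * k by ring] at this

theorem rig : ∃ P, Sm Q P ∧ ∀ x, ∃ ξ b, b ∈ RR Q' ∧ ∀ k : ℤ, Val α Q' (x + P * k) (ξ + b * k) := by
  obtain ⟨P, p1, p2⟩ := TP hG hG' α hp h2 hQ
  have p0 := p1.1
  have sh : ∀ (j : ℕ) (x : ℤ), 0 ≤ x → ∃ A, ∀ k : ℕ, Im α Q Q' (· + j) (x + P * k) A := by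
    intro j x hx
    induction j with
    | zero => exact ⟨_, fun k => by simpa using Im.id α _⟩
    | succ j ih =>
      obtain ⟨A, a⟩ := ih
      obtain ⟨B, b⟩ := Tex hG hG' α (x := x + j) (by positivity)
      refine ⟨cp B A, fun k => ?_⟩
      have := p2 _ k B (by positivity) (by positivity) b
      rw [add_right_comm] at this
      simpa only [Nat.cast_succ, add_assoc] using (a k).comp hG α this
  have vR : ∀ x ξ, Val α Q' x ξ → ξ ∈ RR Q' := fun x ξ v => by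
    obtain ⟨y, f⟩ := K3 hG hG' α x sm_one
    simpa using (RR Q').sub_mem (intCast_mem _ y) (v y 1 sm_one f)
  have key : ∀ x, 0 ≤ x → ∃ ξ b, b ∈ RR Q' ∧ ∀ k : ℕ, Val α Q' (x + P * k) (ξ + b * k) := by
    intro x hx
    obtain ⟨ξ0, v0⟩ := val0 hG hG' α
    obtain ⟨A, a⟩ := sh x.toNat 0 le_rfl
    have v := (a 0).val hG hG' α (ξ := ξ0) (by simpa using v0)
    simp only [Nat.cast_zero, mul_zero, add_zero, zero_add, Int.toNat_of_nonneg hx] at v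
    generalize A.1 * ξ0 + A.2 = ξ at v
    obtain ⟨B, b⟩ := sh P.toNat x hx
    have st : ∀ (k : ℕ) η, Val α Q' (x + P * k) η → Val α Q' (x + P * (k + 1 : ℕ)) (B.1 * η + B.2) :=
      fun k η w => by
        simpa only [Int.toNat_of_nonneg p0.le, Nat.cast_succ, mul_add, mul_one, add_assoc] using
          (b k).val hG hG' α w
    by_cases hB : B.1 = 1
    · have : ∀ k : ℕ, Val α Q' (x + P * k) (ξ + B.2 * k) := fun k => by
        induction k with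
        | zero => simpa using v
        | succ k ih =>
          have := st k _ ih
          rwa [hB, show 1 * (ξ + B.2 * k) + B.2 = ξ + B.2 * (k + 1 : ℕ) by push_cast; ring] at this
      exact ⟨ξ, B.2, by simpa using (RR Q').sub_mem (vR _ _ (this 1)) (vR _ _ v), this⟩
    exfalso
    have h3 : 1 - B.1 ≠ 0 := sub_ne_zero.2 (Ne.symm hB)
    have : ∀ k : ℕ, Val α Q' (x + P * k) (ξ - (1 - B.1 ^ k) * (ξ - B.2 / (1 - B.1))) := fun k => by
      induction k with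
      | zero => simpa using v
      | succ k ih =>
        have := st k _ ih
        rwa [show B.1 * (ξ - (1 - B.1 ^ k) * (ξ - B.2 / (1 - B.1))) + B.2 =
          ξ - (1 - B.1 ^ (k + 1)) * (ξ - B.2 / (1 - B.1)) by field_simp; ring] at this
    obtain ⟨g, -, ⟨m, N, a1, a2, a3⟩, -⟩ := b 0
    obtain ⟨q, q1, q2, q3⟩ := Rs a1 a2 a3 hB
    have e : ξ - B.2 / (1 - B.1) = 0 := Rz q2 (Set.mem_singleton q) fun j => by
      obtain ⟨L, l1, l2⟩ := Val.near hG hG' α (x := x) ((sm_prime q2 q1).pow j)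
      have w := this L.toNat
      rw [Int.toNat_of_nonneg l1.1.le, mul_comm] at w
      obtain ⟨c1, c2⟩ := q3 L.toNat (by have := l1.1; omega)
      have := (RR {q}).mul_mem c2 (RR_iff.1 (l2 _ _ _ v w) q q1 q2)
      rwa [sub_sub_cancel, mul_div_assoc, inv_mul_cancel_left₀ (sub_ne_zero.2 c1.symm),
        Int.cast_pow, Int.cast_natCast] at this
    have w := this 1
    rw [e, mul_zero, sub_zero] at w
    have := v.inj hG hG' α w
    omega
  refine ⟨P, p1, fun x => ?_⟩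
  obtain ⟨r, t, r0, -, rfl⟩ := decomp x p0
  obtain ⟨ξ, b, b1, b2⟩ := key r r0
  refine ⟨ξ + b * t, b, b1, fun k y M s f => ?_⟩
  obtain ⟨L, l1, l2⟩ := K5 hG hG' α s
  have h0 : 0 ≤ t + k + L * M * |t + k| := by
    have := mul_pos l1.1 s.1
    nlinarith [neg_abs_le (t + k), abs_nonneg (t + k)]
  have w := b2 (t + k + L * M * |t + k|).toNat
  rw [Int.toNat_of_nonneg h0, ← Int.cast_natCast, Int.toNat_of_nonneg h0,
    show r + P * (t + k + L * M * |t + k|) = r + P * t + P * k + L * (P * M * |t + k|) by ring] at w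
  have := (RR Q').add_mem (w y M s (l2 _ _ _ f)) ((RR Q').mul_mem b1 (intCast_mem _ (L * |t + k|)))
  have h2 : (M : ℚ) ≠ 0 := by exact_mod_cast s.1.ne'
  generalize |t + k| = u at this
  rwa [show (y - (ξ + b * (t + k + L * M * u : ℤ))) / M + b * (L * u : ℤ) =
    (y - (ξ + b * t + b * k)) / M by push_cast; field_simp; ring] at this

end Pool.Agent.H.MP_a5f8b0_al
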